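import Pool.Agent.W387.R.Stm

/-!
# The lower bound for the Dehn function of a trivial HNN extension (`StmLB`)
-/

set_option autoImplicit false

namespace Pool.Agent.W73.RA

open Pool.Agent.W387.RA

section gen

variable {Q : Type} [Group Q]

/-- right translation -/
def RT : Q →* Equiv.Perm ((Q → ℝ) × ℝ) where
  toFun := fun k =>
    { toFun := fun s => (fun x => s.1 (x * k), s.2)
      invFun := fun s => (fun x => s.1 (x * k⁻¹), s.2)
      left_inv := fun s => by simp
      right_inv := fun s => by simp }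
  map_one' := by
    ext s
    · show s.1 (_ * 1) = _
      rw [mul_one]
      rfl
    · rfl
  map_mul' := fun k k' => by
    ext s
    · show s.1 (_ * (k * k')) = s.1 (_ * k * k')
      rw [mul_assoc]
    · rfl

/-- the action of the last generator -/
def SG : Equiv.Perm ((Q → ℝ) × ℝ) where
  toFun := fun s => (s.1, s.2 + s.1 1)
  invFun := fun s => (s.1, s.2 - s.1 1)
  left_inv := fun s => by simp
  right_inv := fun s => by simp

theorem RT_apply (k : Q) (s : (Q → ℝ) × ℝ) : RT k s = (fun x => s.1 (x * k), s.2) := rfl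

theorem SG_apply (s : (Q → ℝ) × ℝ) : SG s = (s.1, s.2 + s.1 1) := rfl

theorem SG_inv_apply (s : (Q → ℝ) × ℝ) : SG⁻¹ s = (s.1, s.2 - s.1 1) := rfl

end gen

variable {m : ℕ} (rels : Finset (FreeGroup (Fin m)))

/-- the action -/
def act : FreeGroup (Fin (m + 1)) →* Equiv.Perm ((PG rels → ℝ) × ℝ) :=
  FreeGroup.lift (fun j => Fin.lastCases (motive := fun _ => Equiv.Perm ((PG rels → ℝ) × ℝ)) SG
    (fun i => RT (pg rels (FreeGroup.of i))) j)

theorem act_of_cast (i : Fin m) :
    act rels (FreeGroup.of (Fin.castSucc i)) = RT (pg rels (FreeGroup.of i)) := by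
  unfold act
  rw [FreeGroup.lift_apply_of, Fin.lastCases_castSucc]

theorem act_sigma : act rels sigma = SG := by
  unfold act sigma
  rw [FreeGroup.lift_apply_of, Fin.lastCases_last]

theorem act_liftF (x : FreeGroup (Fin m)) : act rels (liftF x) = RT (pg rels x) := by
  have h : (act rels).comp liftF = RT.comp (pg rels) := by
    apply FreeGroup.ext_hom
    intro i
    rw [MonoidHom.comp_apply, MonoidHom.comp_apply]
    unfold liftF
    rw [FreeGroup.map.of]
    exact act_of_cast rels i
  exact DFunLike.congr_fun h x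

/-- the projection -/
def bar : FreeGroup (Fin (m + 1)) →* PG rels :=
  FreeGroup.lift (fun j => Fin.lastCases (motive := fun _ => PG rels) 1
    (fun i => pg rels (FreeGroup.of i)) j)

theorem bar_of_cast (i : Fin m) :
    bar rels (FreeGroup.of (Fin.castSucc i)) = pg rels (FreeGroup.of i) := by
  unfold bar
  rw [FreeGroup.lift_apply_of, Fin.lastCases_castSucc]

theorem bar_sigma : bar rels sigma = 1 := by
  unfold bar sigma
  rw [FreeGroup.lift_apply_of, Fin.lastCases_last]

theorem act_form (w : FreeGroup (Fin (m + 1))) : ∃ c : (PG rels → ℝ) → ℝ, ∀ f r,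
    act rels w (f, r) = (fun x => f (x * bar rels w), r + c f) := by
  induction w using FreeGroup.induction_on with
  | C1 => exact ⟨fun _ => 0, fun f r => by simp⟩
  | of i =>
    induction i using Fin.lastCases with
    | last =>
      refine ⟨fun f => f 1, fun f r => ?_⟩
      show act rels sigma (f, r) = (fun x => f (x * bar rels sigma), r + f 1)
      rw [act_sigma, bar_sigma, SG_apply]
      simp
    | cast i =>
      refine ⟨fun f => 0, fun f r => ?_⟩
      show act rels (FreeGroup.of (Fin.castSucc i)) (f, r) =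
        (fun x => f (x * bar rels (FreeGroup.of (Fin.castSucc i))), r + 0)
      rw [act_of_cast, bar_of_cast, RT_apply]
      simp
  | inv_of i ih =>
    obtain ⟨c, hc⟩ := ih
    refine ⟨fun f => -c (fun x => f (x * (bar rels (FreeGroup.of i))⁻¹)), fun f r => ?_⟩
    have e1 : act rels (FreeGroup.of i)⁻¹ = (act rels (FreeGroup.of i))⁻¹ := map_inv _ _
    have e2 : bar rels (FreeGroup.of i)⁻¹ = (bar rels (FreeGroup.of i))⁻¹ := map_inv _ _
    show act rels (FreeGroup.of i)⁻¹ (f, r) = (fun x => f (x * bar rels (FreeGroup.of i)⁻¹), r + _)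
    rw [e1, e2, Equiv.Perm.inv_eq_iff_eq, hc]
    simp
  | mul x y hx hy =>
    obtain ⟨c, hc⟩ := hx
    obtain ⟨c', hc'⟩ := hy
    refine ⟨fun f => c' f + c (fun x => f (x * bar rels y)), fun f r => ?_⟩
    rw [map_mul, map_mul, Equiv.Perm.mul_apply, hc', hc]
    apply Prod.ext
    · funext z
      show f (z * bar rels x * bar rels y) = f (z * (bar rels x * bar rels y))
      rw [mul_assoc]
    · show r + c' f + _ = r + (c' f + _)
      ring

/-- the action of a commutator with `σ` -/
theorem act_comm {g : FreeGroup (Fin (m + 1))} {k : PG rels} (hg : act rels g = RT k)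
    (f : PG rels → ℝ) (r : ℝ) :
    act rels (sigma * g * sigma⁻¹ * g⁻¹) (f, r) = (f, r + (f 1 - f k⁻¹)) := by
  rw [map_mul, map_mul, map_mul, map_inv, map_inv, hg, act_sigma, ← map_inv]
  simp only [Equiv.Perm.mul_apply]
  rw [RT_apply, SG_inv_apply, RT_apply, SG_apply]
  apply Prod.ext
  · funext x
    simp
  · simp only [one_mul]
    simp only [mul_inv_cancel]
    ring

theorem act_conj (p : FreeGroup (Fin (m + 1))) (g : FreeGroup (Fin (m + 1))) {k : PG rels}
    (hg : act rels g = RT k) (f : PG rels → ℝ) (r : ℝ) :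
    act rels (p * (sigma * g * sigma⁻¹ * g⁻¹) * p⁻¹) (f, r) =
      (f, r + (f (bar rels p)⁻¹ - f (k⁻¹ * (bar rels p)⁻¹))) := by
  obtain ⟨c, hc⟩ := act_form rels p
  obtain ⟨c', hc'⟩ := act_form rels p⁻¹
  have h1 : act rels p (act rels p⁻¹ (f, r)) = (f, r) := by
    rw [← Equiv.Perm.mul_apply, ← map_mul, mul_inv_cancel, map_one]
    rfl
  rw [hc', hc] at h1
  have h2 := congrArg Prod.snd h1
  have h3 : (fun x => f (x * bar rels p * bar rels p⁻¹)) = f := congrArg Prod.fst h1
  simp only at h2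
  rw [map_mul, map_mul, Equiv.Perm.mul_apply, Equiv.Perm.mul_apply, hc', act_comm rels hg, hc]
  apply Prod.ext
  · exact h3
  · simp only [map_inv, one_mul]
    simp only [map_inv] at h2
    linarith

variable (Ns : Finset (FreeGroup (Fin m))) (f : PG rels → ℝ) (c : ℝ)

theorem act_rel (hf : ∀ n ∈ Ns, ∀ x : PG rels, |f x - f ((pg rels n)⁻¹ * x)| ≤ c)
    {r : FreeGroup (Fin (m + 1))} (h : r ∈ relsT rels Ns) (p : FreeGroup (Fin (m + 1))) :
    ∃ e : ℝ, |e| ≤ |c| ∧ ∀ z, act rels (p * r * p⁻¹) (f, z) = (f, z + e) := by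
  unfold relsT at h
  rcases Finset.mem_union.mp h with h | h
  · obtain ⟨r0, hr0, rfl⟩ := Finset.mem_image.mp h
    refine ⟨0, by simp, fun z => ?_⟩
    have h1 : pg rels r0 = 1 := by
      apply PresentedGroup.one_of_mem
      exact_mod_cast hr0
    rw [map_mul, map_mul, act_liftF, h1, map_one, mul_one, ← map_mul, mul_inv_cancel, map_one]
    simp
  · obtain ⟨n, hn, rfl⟩ := Finset.mem_image.mp h
    refine ⟨_, (hf n hn (bar rels p)⁻¹).trans (le_abs_self c), fun z => ?_⟩
    exact act_conj rels p (liftF n) (act_liftF rels n) f z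

theorem act_rel' (hf : ∀ n ∈ Ns, ∀ x : PG rels, |f x - f ((pg rels n)⁻¹ * x)| ≤ c)
    {r : FreeGroup (Fin (m + 1))} (h : r ∈ relsT rels Ns ∨ r⁻¹ ∈ relsT rels Ns)
    (p : FreeGroup (Fin (m + 1))) :
    ∃ e : ℝ, |e| ≤ |c| ∧ ∀ z, act rels (p * r * p⁻¹) (f, z) = (f, z + e) := by
  rcases h with h | h
  · exact act_rel rels Ns f c hf h p
  · obtain ⟨e, he, h2⟩ := act_rel rels Ns f c hf h p
    refine ⟨-e, by rwa [abs_neg], fun z => ?_⟩
    have e1 : p * r * p⁻¹ = (p * r⁻¹ * p⁻¹)⁻¹ := by group
    rw [e1, map_inv, Equiv.Perm.inv_eq_iff_eq, h2]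
    simp

theorem act_prod (hf : ∀ n ∈ Ns, ∀ x : PG rels, |f x - f ((pg rels n)⁻¹ * x)| ≤ c) :
    ∀ (L : List (FreeGroup (Fin (m + 1)) × FreeGroup (Fin (m + 1)))),
    (∀ p ∈ L, p.2 ∈ relsT rels Ns ∨ p.2⁻¹ ∈ relsT rels Ns) →
    ∃ e : ℝ, |e| ≤ |c| * L.length ∧
      ∀ z, act rels (L.map (fun p => p.1 * p.2 * p.1⁻¹)).prod (f, z) = (f, z + e) := by
  intro L
  induction L with
  | nil => exact fun _ => ⟨0, by simp, fun z => by simp⟩
  | cons x L ih =>
    intro h
    obtain ⟨e, he, h1⟩ := ih (fun p hp => h p (List.mem_cons_of_mem _ hp))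
    obtain ⟨e', he', h2⟩ := act_rel' rels Ns f c hf (h x (by simp)) x.1
    refine ⟨e + e', ?_, fun z => ?_⟩
    · calc |e + e'| ≤ |e| + |e'| := abs_add_le _ _
        _ ≤ |c| * L.length + |c| := add_le_add he he'
        _ = |c| * (x :: L).length := by
          rw [List.length_cons]
          push_cast
          ring
    · rw [List.map_cons, List.prod_cons, map_mul, Equiv.Perm.mul_apply, h1, h2, add_assoc]

/-- the commutator with an element of `N` is trivial in the extension -/
theorem comm_mem (w : FreeGroup (Fin m)) (hw : pg rels w ∈ subN rels Ns) :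
    sigma * liftF w * sigma⁻¹ * (liftF w)⁻¹ ∈
      Subgroup.normalClosure (↑(relsT rels Ns) : Set (FreeGroup (Fin (m + 1)))) := by
  have hrel : ∀ r ∈ relsT rels Ns, pg (relsT rels Ns) r = 1 := by
    intro r hr
    apply PresentedGroup.one_of_mem
    exact_mod_cast hr
  let io : PG rels →* PG (relsT rels Ns) :=
    QuotientGroup.lift (Subgroup.normalClosure (↑rels : Set (FreeGroup (Fin m))))
      ((pg (relsT rels Ns)).comp liftF) (by
        intro x hx
        have hle : Subgroup.normalClosure (↑rels : Set (FreeGroup (Fin m))) ≤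
            ((pg (relsT rels Ns)).comp liftF).ker := by
          apply Subgroup.normalClosure_le_normal
          intro r hr
          show (pg (relsT rels Ns)).comp liftF r = 1
          rw [MonoidHom.comp_apply]
          apply hrel
          unfold relsT
          exact Finset.mem_union_left _ (Finset.mem_image_of_mem _ (by exact_mod_cast hr))
        exact hle hx)
  have hio : ∀ x, io (pg rels x) = pg (relsT rels Ns) (liftF x) := fun x => rfl
  have hcomm : ∀ x ∈ subN rels Ns, Commute (pg (relsT rels Ns) sigma) (io x) := by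
    intro x hx
    unfold subN at hx
    induction hx using Subgroup.closure_induction with
    | mem x hx =>
      obtain ⟨n, hn, rfl⟩ := hx
      rw [hio]
      have h1 := hrel (sigma * liftF n * sigma⁻¹ * (liftF n)⁻¹) (by
        unfold relsT
        exact Finset.mem_union_right _ (Finset.mem_image_of_mem _ (by exact_mod_cast hn)))
      rw [map_mul, map_mul, map_mul, map_inv, map_inv, mul_inv_eq_one, mul_inv_eq_iff_eq_mul] at h1
      exact h1
    | one => rw [map_one]; exact Commute.one_right _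
    | mul x y _ _ hx hy => rw [map_mul]; exact hx.mul_right hy
    | inv x _ hx => rw [map_inv]; exact hx.inv_right
  have h2 := hcomm _ hw
  rw [hio] at h2
  have h3 : pg (relsT rels Ns) (sigma * liftF w * sigma⁻¹ * (liftF w)⁻¹) = 1 := by
    rw [map_mul, map_mul, map_mul, map_inv, map_inv, mul_inv_eq_one, mul_inv_eq_iff_eq_mul]
    exact h2
  exact (QuotientGroup.eq_one_iff _).mp h3

/-- **StmLB** -/
theorem t_LB : Pool.Agent.W387.RA.StmLB := by
  intro m rels Ns f c hf hK C
  obtain ⟨L, hL1, hL2⟩ := hK (2 * C * (⌈|c|⌉₊ + 1))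
  refine ⟨2 * L.length + 2,
    sigma * liftF (FreeGroup.mk L) * sigma⁻¹ * (liftF (FreeGroup.mk L))⁻¹, ?_,
    comm_mem rels Ns _ hL1, ?_⟩
  · refine ⟨[(Fin.last m, true)] ++ L.map (fun x => (Fin.castSucc x.1, x.2)) ++
      FreeGroup.invRev [(Fin.last m, true)] ++
      FreeGroup.invRev (L.map (fun x => (Fin.castSucc x.1, x.2))), ?_, ?_⟩
    · simp only [List.length_append, FreeGroup.invRev_length, List.length_map, List.length_cons,
        List.length_nil]
      omega
    · rw [← FreeGroup.mul_mk, ← FreeGroup.mul_mk, ← FreeGroup.mul_mk, ← FreeGroup.inv_mk,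
        ← FreeGroup.inv_mk]
      rfl
  · intro l hl hprod
    by_contra hlt
    push Not at hlt
    obtain ⟨e, he, h4⟩ := act_prod rels Ns f c hf l hl
    have h5 := h4 0
    rw [← hprod, act_comm rels (act_liftF rels (FreeGroup.mk L))] at h5
    have h6 : f 1 - f (pg rels (FreeGroup.mk L))⁻¹ = e := by
      have := congrArg Prod.snd h5
      simpa using this
    rw [h6] at hL2
    have h7 : (l.length : ℝ) ≤ (C : ℝ) * 2 ^ (C * (2 * L.length + 2)) + C := by exact_mod_cast hlt
    have hc0 : (0 : ℝ) ≤ |c| := abs_nonneg c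
    have hC0 : (0 : ℝ) ≤ C := by positivity
    have hc1 : |c| ≤ (⌈|c|⌉₊ : ℝ) := Nat.le_ceil _
    have h8 : (1 : ℝ) ≤ 2 ^ (C * (2 * L.length + 2)) := one_le_pow₀ (by norm_num)
    have h9 : (2 : ℝ) ^ (C * (2 * L.length + 2)) ≤
        2 ^ (2 * C * (⌈|c|⌉₊ + 1) * (L.length + 1)) := by
      apply pow_le_pow_right₀ (by norm_num)
      have e1 : C * (2 * L.length + 2) = 2 * C * (L.length + 1) := by ring
      rw [e1]
      apply Nat.mul_le_mul_right
      exact Nat.le_mul_of_pos_right _ (Nat.succ_pos _)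
    have h10 : |e| ≤ |c| * (2 * C * 2 ^ (2 * C * (⌈|c|⌉₊ + 1) * (L.length + 1))) := by
      refine he.trans (mul_le_mul_of_nonneg_left (h7.trans ?_) hc0)
      nlinarith [mul_le_mul_of_nonneg_left h8 hC0, mul_le_mul_of_nonneg_left h9 hC0]
    have h11 : |c| * (2 * C * 2 ^ (2 * C * (⌈|c|⌉₊ + 1) * (L.length + 1))) ≤
        ((2 * C * (⌈|c|⌉₊ + 1) : ℕ) : ℝ) * 2 ^ (2 * C * (⌈|c|⌉₊ + 1) * (L.length + 1)) := by
      push_cast
      have h12 : (0 : ℝ) ≤ 2 ^ (2 * C * (⌈|c|⌉₊ + 1) * (L.length + 1)) := by positivity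
      have h13 : |c| * (2 * C) ≤ 2 * (C : ℝ) * ((⌈|c|⌉₊ : ℝ) + 1) := by nlinarith
      calc |c| * (2 * C * 2 ^ (2 * C * (⌈|c|⌉₊ + 1) * (L.length + 1)))
          = (|c| * (2 * C)) * 2 ^ (2 * C * (⌈|c|⌉₊ + 1) * (L.length + 1)) := by ring
        _ ≤ _ := mul_le_mul_of_nonneg_right h13 h12
    linarith [le_abs_self e]

end Pool.Agent.W73.RA
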